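import Pool.Agent.helper79.SX.Spec

/-!
# Project sx (MP_5628fe_nt), module CH2: Stirling bounds
-/

set_option autoImplicit false

open Finset ArithmeticFunction

namespace Pool.Agent.SX

theorem CH2_exp : Real.exp (9 / 5) ≤ 6.28 := by
  have h1 : Real.exp (9 / 5) ^ 5 ≤ (6.28 : ℝ) ^ 5 := by
    have h2 : Real.exp (9 / 5) ^ 5 = Real.exp 1 ^ 9 := by
      rw [← Real.exp_nat_mul, ← Real.exp_nat_mul]
      norm_num
    rw [h2]
    calc Real.exp 1 ^ 9 ≤ (2.7182818286 : ℝ) ^ 9 :=
          pow_le_pow_left₀ (Real.exp_pos _).le Real.exp_one_lt_d9.le 9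
      _ ≤ (6.28 : ℝ) ^ 5 := by norm_num
  exact (pow_le_pow_iff_left₀ (Real.exp_pos _).le (by norm_num) (by norm_num)).1 h1

theorem CH2 : CH2_stmt := by
  intro N hN
  have hN0 : (0 : ℝ) < N := by exact_mod_cast hN
  constructor
  · have h := Stirling.le_log_factorial_stirling (n := N) (by omega)
    have h2 : (9 / 5 : ℝ) ≤ Real.log (2 * Real.pi) := by
      rw [Real.le_log_iff_exp_le (by positivity)]
      have := Real.pi_gt_d2
      have := CH2_exp
      linarith
    linarith
  · have h1 : Stirling.stirlingSeq N ≤ Stirling.stirlingSeq 1 := by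
      obtain ⟨m, rfl⟩ : ∃ m, N = m + 1 := ⟨N - 1, by omega⟩
      exact Stirling.stirlingSeq'_antitone (Nat.zero_le m)
    have hpos : 0 < Stirling.stirlingSeq N := by
      obtain ⟨m, rfl⟩ : ∃ m, N = m + 1 := ⟨N - 1, by omega⟩
      exact Stirling.stirlingSeq'_pos m
    have h3 := Real.log_le_log hpos h1
    rw [Stirling.log_stirlingSeq_formula, Stirling.stirlingSeq_one,
      Real.log_div (Real.exp_pos _).ne' (by positivity), Real.log_exp,
      Real.log_sqrt (by norm_num), Real.log_mul (by norm_num) hN0.ne',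
      Real.log_div hN0.ne' (Real.exp_pos _).ne', Real.log_exp] at h3
    linarith

end Pool.Agent.SX
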